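import Mathlib

/-!
# A closed RIG that is not an SCRVG

The join of two paths with 10 vertices is a closed rectangle-of-influence graph but not a south
corner rectangle visibility graph.
-/

set_option autoImplicit false

open Set

namespace Pool.Agent.Results.MP_dc6ec3_co.NotSCRVG

/-! ### Definitions -/

/-- The closed axis-parallel rectangles `[x0, x1] × [y0, y1]` of positive width and height. -/
structure Rect where
  x0 : ℝ
  x1 : ℝ
  y0 : ℝ
  y1 : ℝ
  hx : x0 < x1
  hy : y0 < y1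

/-- The rectangle as a set of points. -/
def Rect.set (A : Rect) : Set (ℝ × ℝ) := {z | (A.x0 ≤ z.1 ∧ z.1 ≤ A.x1) ∧ A.y0 ≤ z.2 ∧ z.2 ≤ A.y1}

/-- The south (lower right) corner, the eye of the rectangle. -/
def Rect.eye (A : Rect) : ℝ × ℝ := (A.x1, A.y0)

variable {V : Type}

/-- `A = R u` sees `B = R v`: there is a rectangle `Q = uIcc p q` of positive width and height,
`p` being the eye of `A` and the opposite corner `q` a boundary point of `B`, with `Q ∩ A = {p}`,
`Q ∩ B` in the boundary of `B`, and `Q` disjoint from the other members of the family. -/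
def Sees (R : V → Rect) (u v : V) : Prop :=
  ∃ q : ℝ × ℝ, q.1 ≠ (R u).eye.1 ∧ q.2 ≠ (R u).eye.2 ∧ q ∈ frontier (R v).set ∧
    uIcc (R u).eye q ∩ (R u).set = {(R u).eye} ∧
    uIcc (R u).eye q ∩ (R v).set ⊆ frontier (R v).set ∧
    ∀ w, w ≠ u → w ≠ v → Disjoint (uIcc (R u).eye q) (R w).set

/-- `G` is a south corner rectangle visibility graph. -/
def IsSCRVG (G : SimpleGraph V) : Prop :=
  ∃ R : V → Rect, (∀ u v, u ≠ v → Disjoint (R u).set (R v).set) ∧
    ∀ u v, G.Adj u v ↔ u ≠ v ∧ (Sees R u v ∨ Sees R v u)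

/-- `G` is a closed rectangle-of-influence graph. Here `uIcc A B` is the closed axis-parallel
rectangle with `A` and `B` at opposite corners. -/
def IsClosedRIG (G : SimpleGraph V) : Prop :=
  ∃ P : V → ℝ × ℝ, Function.Injective P ∧
    ∀ u v, G.Adj u v ↔ u ≠ v ∧ ∀ w, P w ∈ uIcc (P u) (P v) → w = u ∨ w = v

/-! ### The graph -/

/-- the adjacency relation of the join of two paths with `m` vertices -/
def padj (m : ℕ) : Fin m ⊕ Fin m → Fin m ⊕ Fin m → Prop
  | .inl i, .inl j => (i : ℕ) + 1 = j ∨ (j : ℕ) + 1 = i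
  | .inr i, .inr j => (i : ℕ) + 1 = j ∨ (j : ℕ) + 1 = i
  | .inl _, .inr _ => True
  | .inr _, .inl _ => True

/-- the join of two paths with `m` vertices -/
def pathJoin (m : ℕ) : SimpleGraph (Fin m ⊕ Fin m) where
  Adj := padj m
  symm := ⟨by
    rintro (i | i) (j | j) h
    · exact h.symm
    · trivial
    · trivial
    · exact h.symm⟩
  loopless := ⟨by
    rintro (i | i) (h | h) <;> omega⟩

/-! ### It is a closed rectangle-of-influence graph -/

/-- the points: two increasing chains, one to the upper left of the other -/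
def pt (m : ℕ) : Fin m ⊕ Fin m → ℤ × ℤ
  | .inl i => (i, m + i)
  | .inr j => (m + j, j)

lemma mem_uIcc_iff (a b z : ℝ × ℝ) : z ∈ uIcc a b ↔
    (min a.1 b.1 ≤ z.1 ∧ z.1 ≤ max a.1 b.1) ∧ min a.2 b.2 ≤ z.2 ∧ z.2 ≤ max a.2 b.2 := by
  simp only [uIcc, Set.mem_Icc, Prod.le_def, Prod.fst_inf, Prod.snd_inf, Prod.fst_sup,
    Prod.snd_sup]
  tauto

lemma closed_cast (a b z : ℤ × ℤ) :
    (((z.1 : ℝ), (z.2 : ℝ)) ∈ uIcc ((a.1 : ℝ), (a.2 : ℝ)) ((b.1 : ℝ), (b.2 : ℝ))) ↔
      (min a.1 b.1 ≤ z.1 ∧ z.1 ≤ max a.1 b.1) ∧ min a.2 b.2 ≤ z.2 ∧ z.2 ≤ max a.2 b.2 := by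
  rw [mem_uIcc_iff]
  simp only
  norm_cast

lemma pathJoin_rig (m : ℕ) : IsClosedRIG (pathJoin m) := by
  refine ⟨fun v => (((pt m v).1 : ℝ), ((pt m v).2 : ℝ)), ?_, ?_⟩
  · rintro (i | i) (j | j) h
    · simp [pt] at h; exact congrArg _ (Fin.ext (by omega))
    · simp only [pt, Prod.mk.injEq] at h
      have := h.2
      norm_cast at this
      omega
    · simp only [pt, Prod.mk.injEq] at h
      have := h.2
      norm_cast at this
      omega
    · simp [pt] at h; exact congrArg _ (Fin.ext (by omega))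
  · intro u v
    simp only [closed_cast]
    rcases u with i | i <;> rcases v with j | j
    · constructor
      · intro h
        refine ⟨fun h' => (pathJoin m).loopless.irrefl _ (h' ▸ h), ?_⟩
        have h : (i : ℕ) + 1 = j ∨ (j : ℕ) + 1 = i := h
        rintro (k | k) hk
        · simp only [pt] at hk
          rcases (by omega : (k : ℕ) = i ∨ (k : ℕ) = j) with h1 | h1
          · left; exact congrArg _ (Fin.ext h1)
          · right; exact congrArg _ (Fin.ext h1)
        · simp only [pt] at hk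
          omega
      · rintro ⟨hne, h⟩
        change (i : ℕ) + 1 = j ∨ (j : ℕ) + 1 = i
        by_contra hcon
        have hne' : (i : ℕ) ≠ j := fun h => hne (congrArg _ (Fin.ext h))
        rcases lt_or_gt_of_ne hne' with h1 | h1
        · have := h (.inl ⟨i + 1, by omega⟩) (by simp only [pt]; omega)
          simp [Fin.ext_iff] at this
          omega
        · have := h (.inl ⟨j + 1, by omega⟩) (by simp only [pt]; omega)
          simp [Fin.ext_iff] at this
          omega
    · refine ⟨fun _ => ⟨by simp, ?_⟩, fun _ => trivial⟩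
      rintro (k | k) hk
      · simp only [pt] at hk
        left; exact congrArg _ (Fin.ext (by omega))
      · simp only [pt] at hk
        right; exact congrArg _ (Fin.ext (by omega))
    · refine ⟨fun _ => ⟨by simp, ?_⟩, fun _ => trivial⟩
      rintro (k | k) hk
      · simp only [pt] at hk
        right; exact congrArg _ (Fin.ext (by omega))
      · simp only [pt] at hk
        left; exact congrArg _ (Fin.ext (by omega))
    · constructor
      · intro h
        refine ⟨fun h' => (pathJoin m).loopless.irrefl _ (h' ▸ h), ?_⟩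
        have h : (i : ℕ) + 1 = j ∨ (j : ℕ) + 1 = i := h
        rintro (k | k) hk
        · simp only [pt] at hk
          omega
        · simp only [pt] at hk
          rcases (by omega : (k : ℕ) = i ∨ (k : ℕ) = j) with h1 | h1
          · left; exact congrArg _ (Fin.ext h1)
          · right; exact congrArg _ (Fin.ext h1)
      · rintro ⟨hne, h⟩
        change (i : ℕ) + 1 = j ∨ (j : ℕ) + 1 = i
        by_contra hcon
        have hne' : (i : ℕ) ≠ j := fun h => hne (congrArg _ (Fin.ext h))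
        rcases lt_or_gt_of_ne hne' with h1 | h1
        · have := h (.inr ⟨i + 1, by omega⟩) (by simp only [pt]; omega)
          simp [Fin.ext_iff] at this
          omega
        · have := h (.inr ⟨j + 1, by omega⟩) (by simp only [pt]; omega)
          simp [Fin.ext_iff] at this
          omega

/-! ### It is not a south corner rectangle visibility graph -/

lemma mem_of_frontier (A : Rect) {z : ℝ × ℝ} (h : z ∈ frontier A.set) : z ∈ A.set := by
  have h1 : A.set = Icc A.x0 A.x1 ×ˢ Icc A.y0 A.y1 := rfl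
  have h2 : IsClosed A.set := by rw [h1]; exact isClosed_Icc.prod isClosed_Icc
  exact h2.frontier_subset h

/-- consequences of seeing -/
lemma of_sees {R : V → Rect} {u v : V} (h : Sees R u v) :
    (R u).x1 < (R v).x1 ∧ (R v).y0 < (R u).y0 ∧
    ∀ w, w ≠ u → w ≠ v → ∀ c d : ℝ, (c, d) ∈ (R w).set →
      (R u).x1 ≤ c → (c ≤ (R v).x0 ∨ c = (R u).x1) →
      d ≤ (R u).y0 → ((R v).y1 ≤ d ∨ d = (R u).y0) → False := by
  obtain ⟨⟨q1, q2⟩, h1, h2, h3, h4, h5, h6⟩ := h
  simp only [Rect.eye] at h1 h2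
  have hxx := (R u).hx
  have hyy := (R u).hy
  obtain ⟨⟨g1, g2⟩, g3, g4⟩ := mem_of_frontier _ h3
  simp only at g1 g2 g3 g4
  have key : ∀ z1 z2 : ℝ, (z1, z2) ∈ uIcc (R u).eye (q1, q2) →
      (z1, z2) ∈ (R u).set → z1 = (R u).x1 ∧ z2 = (R u).y0 := by
    intro z1 z2 k1 k2
    have : (z1, z2) ∈ ({(R u).eye} : Set (ℝ × ℝ)) := by
      rw [← h4]; exact ⟨k1, k2⟩
    rw [Set.mem_singleton_iff, Rect.eye, Prod.mk.injEq] at this
    exact this
  have hq1 : (R u).x1 < q1 := by
    rcases lt_or_gt_of_ne h1 with h | h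
    · exfalso
      have := key (max q1 (R u).x0) (R u).y0 (by
        rw [mem_uIcc_iff]
        simp only [Rect.eye]
        refine ⟨⟨(min_le_right _ _).trans (le_max_left _ _), ?_⟩, min_le_left _ _,
          le_max_left _ _⟩
        exact (max_le h.le hxx.le).trans (le_max_left _ _))
        ⟨⟨le_max_right _ _, max_le h.le hxx.le⟩, le_rfl, hyy.le⟩
      rcases max_choice q1 (R u).x0 with h' | h'
      · rw [h'] at this; linarith
      · rw [h'] at this; linarith
    · exact h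
  have hq2 : q2 < (R u).y0 := by
    rcases lt_or_gt_of_ne h2 with h | h
    · exact h
    · exfalso
      have := key (R u).x1 (min q2 (R u).y1) (by
        rw [mem_uIcc_iff]
        simp only [Rect.eye]
        refine ⟨⟨min_le_left _ _, le_max_left _ _⟩, ?_, (min_le_left _ _).trans (le_max_right _ _)⟩
        exact (min_le_left _ _).trans (le_min h.le hyy.le))
        ⟨⟨hxx.le, le_rfl⟩, le_min h.le hyy.le, min_le_right _ _⟩
      rcases min_choice q2 (R u).y1 with h' | h'
      · rw [h'] at this; linarith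
      · rw [h'] at this; linarith
  refine ⟨hq1.trans_le g2, g3.trans_lt hq2, ?_⟩
  intro w hwu hwv c d hw k1 k2 k3 k4
  refine Set.disjoint_left.1 (h6 w hwu hwv) ?_ hw
  rw [mem_uIcc_iff]
  simp only [Rect.eye]
  refine ⟨⟨(min_le_left _ _).trans k1, ?_⟩, ?_, k3.trans (le_max_left _ _)⟩
  · rcases k2 with k2 | k2
    · exact (k2.trans g1).trans (le_max_right _ _)
    · rw [k2]; exact le_max_left _ _
  · rcases k4 with k4 | k4
    · exact (min_le_right _ _).trans (g4.trans k4)
    · rw [k4]; exact min_le_left _ _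

/-- If the eye of `X` is to the upper left of the eye of `Y` and both see `Z`, then `Z` is not
strictly to the lower right of the eye of `Y`. -/
lemma not_strict {R : V → Rect} {X Y Z : V} (hXY : X ≠ Y) (h1 : (R X).x1 < (R Y).x1)
    (h2 : (R Y).y0 < (R X).y0) (hX : Sees R X Z) (hY : Sees R Y Z) :
    (R Z).x0 ≤ (R Y).x1 ∨ (R Y).y0 ≤ (R Z).y1 := by
  by_contra h
  push Not at h
  obtain ⟨g1, g2, -⟩ := of_sees hY
  have hYZ : Y ≠ Z := by rintro rfl; exact lt_irrefl _ g1
  exact (of_sees hX).2.2 Y hXY.symm hYZ (R Y).x1 (R Y).y0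
    ⟨⟨(R Y).hx.le, le_rfl⟩, le_rfl, (R Y).hy.le⟩ h1.le (Or.inl h.1.le) h2.le (Or.inl h.2.le)

lemma below_unique {R : V → Rect} (hR : ∀ u v, u ≠ v → Disjoint (R u).set (R v).set)
    {Y Z Z' : V} (hZ : Sees R Y Z) (hZ' : Sees R Y Z') (h : (R Z).x0 ≤ (R Y).x1)
    (h' : (R Z').x0 ≤ (R Y).x1) : Z = Z' := by
  by_contra hne
  obtain ⟨a1, a2, a3⟩ := of_sees hZ
  obtain ⟨b1, b2, b3⟩ := of_sees hZ'
  have hYZ : Y ≠ Z := by rintro rfl; exact lt_irrefl _ a1
  have hYZ' : Y ≠ Z' := by rintro rfl; exact lt_irrefl _ b1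
  have zy := (R Z).hy
  have zy' := (R Z').hy
  rcases lt_or_ge (R Z').y1 (R Z).y0 with g | g
  · exact b3 Z hYZ.symm hne (R Y).x1 (R Z).y0 ⟨⟨h, a1.le⟩, le_rfl, zy.le⟩ le_rfl (Or.inr rfl)
      a2.le (Or.inl g.le)
  rcases lt_or_ge (R Z).y1 (R Z').y0 with g' | g'
  · exact a3 Z' hYZ'.symm (Ne.symm hne) (R Y).x1 (R Z').y0 ⟨⟨h', b1.le⟩, le_rfl, zy'.le⟩ le_rfl
      (Or.inr rfl) b2.le (Or.inl g'.le)
  · have m1 : ((R Y).x1, max (R Z).y0 (R Z').y0) ∈ (R Z).set :=
      ⟨⟨h, a1.le⟩, le_max_left _ _, max_le zy.le g'⟩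
    have m2 : ((R Y).x1, max (R Z).y0 (R Z').y0) ∈ (R Z').set :=
      ⟨⟨h', b1.le⟩, le_max_right _ _, max_le g zy'.le⟩
    exact Set.disjoint_left.1 (hR Z Z' hne) m1 m2

lemma beside_unique {R : V → Rect} (hR : ∀ u v, u ≠ v → Disjoint (R u).set (R v).set)
    {Y Z Z' : V} (hZ : Sees R Y Z) (hZ' : Sees R Y Z') (h : (R Y).y0 ≤ (R Z).y1)
    (h' : (R Y).y0 ≤ (R Z').y1) : Z = Z' := by
  by_contra hne
  obtain ⟨a1, a2, a3⟩ := of_sees hZ
  obtain ⟨b1, b2, b3⟩ := of_sees hZ'
  have hYZ : Y ≠ Z := by rintro rfl; exact lt_irrefl _ a1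
  have hYZ' : Y ≠ Z' := by rintro rfl; exact lt_irrefl _ b1
  have zx := (R Z).hx
  have zx' := (R Z').hx
  rcases lt_or_ge (R Z).x1 (R Z').x0 with g | g
  · exact b3 Z hYZ.symm hne (R Z).x1 (R Y).y0 ⟨⟨zx.le, le_rfl⟩, a2.le, h⟩ a1.le (Or.inl g.le)
      le_rfl (Or.inr rfl)
  rcases lt_or_ge (R Z').x1 (R Z).x0 with g' | g'
  · exact a3 Z' hYZ'.symm (Ne.symm hne) (R Z').x1 (R Y).y0 ⟨⟨zx'.le, le_rfl⟩, b2.le, h'⟩ b1.le
      (Or.inl g'.le) le_rfl (Or.inr rfl)
  · have m1 : (max (R Z).x0 (R Z').x0, (R Y).y0) ∈ (R Z).set :=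
      ⟨⟨le_max_left _ _, max_le zx.le g⟩, a2.le, h⟩
    have m2 : (max (R Z).x0 (R Z').x0, (R Y).y0) ∈ (R Z').set :=
      ⟨⟨le_max_right _ _, max_le g' zx'.le⟩, b2.le, h'⟩
    exact Set.disjoint_left.1 (hR Z Z' hne) m1 m2

open scoped Classical in
/-- If `X` is before `Y`, then at most two of the vertices of `T` are seen by `X` and by `Y`. -/
lemma card_le_two {R : V → Rect} (hR : ∀ u v, u ≠ v → Disjoint (R u).set (R v).set)
    {X Y : V} (hXY : X ≠ Y) (h1 : (R X).x1 < (R Y).x1) (h2 : (R Y).y0 < (R X).y0)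
    (T : Finset V) (hX : ∀ Z ∈ T, Sees R X Z) (hY : ∀ Z ∈ T, Sees R Y Z) : T.card ≤ 2 := by
  have hsub : T ⊆ (T.filter fun Z => (R Z).x0 ≤ (R Y).x1) ∪
      (T.filter fun Z => (R Y).y0 ≤ (R Z).y1) := by
    intro Z hZ
    rw [Finset.mem_union, Finset.mem_filter, Finset.mem_filter]
    rcases not_strict hXY h1 h2 (hX Z hZ) (hY Z hZ) with h | h
    · exact Or.inl ⟨hZ, h⟩
    · exact Or.inr ⟨hZ, h⟩
  have c1 : (T.filter fun Z => (R Z).x0 ≤ (R Y).x1).card ≤ 1 := by
    refine Finset.card_le_one.2 fun Z hZ Z' hZ' => ?_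
    rw [Finset.mem_filter] at hZ hZ'
    exact below_unique hR (hY Z hZ.1) (hY Z' hZ'.1) hZ.2 hZ'.2
  have c2 : (T.filter fun Z => (R Y).y0 ≤ (R Z).y1).card ≤ 1 := by
    refine Finset.card_le_one.2 fun Z hZ Z' hZ' => ?_
    rw [Finset.mem_filter] at hZ hZ'
    exact beside_unique hR (hY Z hZ.1) (hY Z' hZ'.1) hZ.2 hZ'.2
  have c3 := Finset.card_le_card hsub
  have c4 := Finset.card_union_le (T.filter fun Z => (R Z).x0 ≤ (R Y).x1)
    (T.filter fun Z => (R Y).y0 ≤ (R Z).y1)
  omega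

open scoped Classical in
/-- The upper one `Y` of two adjacent vertices of a side sees at most two of the vertices of the
other side. -/
lemma upper {R : V → Rect} (hR : ∀ u v, u ≠ v → Disjoint (R u).set (R v).set) {ι : Type}
    [Fintype ι] (W : ι → V) (hW : Function.Injective W) {a b : V} (hab : a ≠ b)
    (h : Sees R a b ∨ Sees R b a)
    (haW : ∀ j, Sees R a (W j) ∨ Sees R (W j) a) (hbW : ∀ j, Sees R b (W j) ∨ Sees R (W j) b) :
    ∃ Y, (Y = a ∨ Y = b) ∧ (Finset.univ.filter fun j => Sees R Y (W j)).card ≤ 2 := by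
  have main : ∀ X Y, X ≠ Y → Sees R X Y → (∀ j, Sees R X (W j) ∨ Sees R (W j) X) →
      (Finset.univ.filter fun j => Sees R Y (W j)).card ≤ 2 := by
    intro X Y hXY hs hX
    obtain ⟨g1, g2, -⟩ := of_sees hs
    have h1 := card_le_two hR hXY g1 g2 ((Finset.univ.filter fun j => Sees R Y (W j)).image W)
      (by
        intro Z hZ
        rw [Finset.mem_image] at hZ
        obtain ⟨j, hj, rfl⟩ := hZ
        rw [Finset.mem_filter] at hj
        rcases hX j with h | h
        · exact h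
        · exfalso
          have := (of_sees h).1
          have := (of_sees hj.2).1
          linarith)
      (by
        intro Z hZ
        rw [Finset.mem_image] at hZ
        obtain ⟨j, hj, rfl⟩ := hZ
        rw [Finset.mem_filter] at hj
        exact hj.2)
    rwa [Finset.card_image_of_injective _ hW] at h1
  rcases h with h | h
  · exact ⟨b, Or.inr rfl, main a b hab h haW⟩
  · exact ⟨a, Or.inl rfl, main b a hab.symm h hbW⟩

lemma pathJoin_not_scrvg : ¬ IsSCRVG (pathJoin 10) := by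
  classical
  rintro ⟨R, hR, hG⟩
  have cross : ∀ i j : Fin 10, Sees R (.inl i) (.inr j) ∨ Sees R (.inr j) (.inl i) :=
    fun i j => ((hG _ _).1 (show (pathJoin 10).Adj (.inl i) (.inr j) from trivial)).2
  -- the uppers
  have hA : ∀ p : Fin 5, ∃ Y : Fin 10, (Y : ℕ) / 2 = p ∧
      (Finset.univ.filter fun j : Fin 10 => Sees R (.inl Y) (.inr j)).card ≤ 2 := by
    intro p
    have e : (pathJoin 10).Adj (.inl ⟨2 * p, by omega⟩) (.inl ⟨2 * p + 1, by omega⟩) := Or.inl rfl
    obtain ⟨Y, hY, hc⟩ := upper hR (fun j : Fin 10 => (Sum.inr j : Fin 10 ⊕ Fin 10))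
      Sum.inr_injective ((hG _ _).1 e).1 ((hG _ _).1 e).2 (cross _) (cross _)
    rcases hY with rfl | rfl
    · exact ⟨⟨2 * p, by omega⟩, by simp only; omega, hc⟩
    · exact ⟨⟨2 * p + 1, by omega⟩, by simp only; omega, hc⟩
  have hB : ∀ p : Fin 5, ∃ Y : Fin 10, (Y : ℕ) / 2 = p ∧
      (Finset.univ.filter fun j : Fin 10 => Sees R (.inr Y) (.inl j)).card ≤ 2 := by
    intro p
    have e : (pathJoin 10).Adj (.inr ⟨2 * p, by omega⟩) (.inr ⟨2 * p + 1, by omega⟩) := Or.inl rfl
    obtain ⟨Y, hY, hc⟩ := upper hR (fun j : Fin 10 => (Sum.inl j : Fin 10 ⊕ Fin 10))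
      Sum.inl_injective ((hG _ _).1 e).1 ((hG _ _).1 e).2 (fun j => (cross j _).symm)
      (fun j => (cross j _).symm)
    rcases hY with rfl | rfl
    · exact ⟨⟨2 * p, by omega⟩, by simp only; omega, hc⟩
    · exact ⟨⟨2 * p + 1, by omega⟩, by simp only; omega, hc⟩
  choose A hA1 hA2 using hA
  choose B hB1 hB2 using hB
  have Ainj : Function.Injective A := fun p q h => Fin.ext (by rw [← hA1 p, ← hA1 q, h])
  have Binj : Function.Injective B := fun p q h => Fin.ext (by rw [← hB1 p, ← hB1 q, h])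
  have c1 : ∀ p, (Finset.univ.filter fun q => Sees R (.inl (A p)) (.inr (B q))).card ≤ 2 := by
    intro p
    refine le_trans ?_ (hA2 p)
    refine Finset.card_le_card_of_injOn B ?_ Binj.injOn
    intro q hq
    rw [Finset.mem_coe, Finset.mem_filter] at hq ⊢
    exact ⟨Finset.mem_univ _, hq.2⟩
  have c2 : ∀ q, (Finset.univ.filter fun p => Sees R (.inr (B q)) (.inl (A p))).card ≤ 2 := by
    intro p
    refine le_trans ?_ (hB2 p)
    refine Finset.card_le_card_of_injOn A ?_ Ainj.injOn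
    intro q hq
    rw [Finset.mem_coe, Finset.mem_filter] at hq ⊢
    exact ⟨Finset.mem_univ _, hq.2⟩
  have t1 : ∑ p : Fin 5, ∑ q : Fin 5, (if Sees R (.inl (A p)) (.inr (B q)) then 1 else 0) ≤ 10 := by
    calc _ ≤ ∑ _p : Fin 5, 2 := Finset.sum_le_sum fun p _ => by
            rw [← Finset.card_filter]; exact c1 p
      _ = 10 := by simp
  have t2 : ∑ p : Fin 5, ∑ q : Fin 5, (if Sees R (.inr (B q)) (.inl (A p)) then 1 else 0) ≤ 10 := by
    rw [Finset.sum_comm]
    calc _ ≤ ∑ _q : Fin 5, 2 := Finset.sum_le_sum fun q _ => by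
            rw [← Finset.card_filter]; exact c2 q
      _ = 10 := by simp
  have t3 : (25 : ℕ) ≤ ∑ p : Fin 5, ∑ q : Fin 5, ((if Sees R (.inl (A p)) (.inr (B q)) then 1 else 0) +
      (if Sees R (.inr (B q)) (.inl (A p)) then 1 else 0)) := by
    calc (25 : ℕ) = ∑ _p : Fin 5, ∑ _q : Fin 5, 1 := by simp
      _ ≤ _ := Finset.sum_le_sum fun p _ => Finset.sum_le_sum fun q _ => by
          rcases cross (A p) (B q) with h | h
          · simp [h]
          · simp [h]
  simp only [Finset.sum_add_distrib] at t3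
  omega

/-- Not every closed rectangle-of-influence graph is a south corner rectangle visibility graph. -/
theorem result : ∃ (V : Type) (_ : Fintype V) (G : SimpleGraph V),
    IsClosedRIG G ∧ ¬ IsSCRVG G :=
  ⟨_, inferInstance, pathJoin 10, pathJoin_rig 10, pathJoin_not_scrvg⟩

end Pool.Agent.Results.MP_dc6ec3_co.NotSCRVG
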